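import Pool.Agent.U866.OM.Stm

/-! Project OM, package RM: the Gauss equation of a Euclidean graph. -/

set_option autoImplicit false

namespace Pool.Agent.U873.OM

open Pool.Agent.H498R3.GB Pool.Agent.U866.OM
open scoped BigOperators ContDiff Topology Matrix

lemma cpd {m : ℕ} {v : E m → ℝ} (hv : ContDiff ℝ ∞ v) (i : Fin m) : ContDiff ℝ ∞ (pd i v) := by
  unfold pd
  exact (hv.fderiv_right (m := ∞) (by simp)).clm_apply contDiff_const

lemma pd_comm {m : ℕ} {v : E m → ℝ} (hv : ContDiff ℝ ∞ v) (i j : Fin m) (x : E m) :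
    pd i (pd j v) x = pd j (pd i v) x := by
  have hd : DifferentiableAt ℝ (fderiv ℝ v) x :=
    ((hv.fderiv_right (m := ∞) (by simp)).differentiable (by simp)) x
  have key : ∀ a b : Fin m, pd a (pd b v) x =
      fderiv ℝ (fderiv ℝ v) x (EuclideanSpace.single a 1) (EuclideanSpace.single b 1) := by
    intro a b
    unfold pd
    rw [fderiv_clm_apply hd (by fun_prop)]
    simp
  rw [key, key]
  have hs : IsSymmSndFDerivAt ℝ v x := by
    apply ContDiffAt.isSymmSndFDerivAt (n := ∞) hv.contDiffAt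
    simp only [minSmoothness_of_isRCLikeNormedField]
    exact WithTop.coe_le_coe.2 le_top
  exact hs _ _

lemma pd_comm_fun {m : ℕ} {v : E m → ℝ} (hv : ContDiff ℝ ∞ v) (i j : Fin m) :
    pd i (pd j v) = pd j (pd i v) := funext fun x => pd_comm hv i j x

lemma pd_entry {m : ℕ} {v : E m → ℝ} (hv : ContDiff ℝ ∞ v) (k i j : Fin m) :
    pd k (fun z => euc v z i j) = fun x =>
      pd i v x * pd k (pd j v) x + pd j v x * pd k (pd i v) x := by
  funext x
  unfold euc
  simp only [Matrix.of_apply]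
  have hi := cpd hv i
  have hj := cpd hv j
  rw [pd_add (by fun_prop) (diff_of (hi.mul hj) x), pd_const, pd_mul (diff_of hi x) (diff_of hj x)]
  ring

lemma pd_pd_entry {m : ℕ} {v : E m → ℝ} (hv : ContDiff ℝ ∞ v) (l k i j : Fin m) (x : E m) :
    pd l (pd k (fun z => euc v z i j)) x =
      pd i v x * pd l (pd k (pd j v)) x + pd k (pd j v) x * pd l (pd i v) x
      + (pd j v x * pd l (pd k (pd i v)) x + pd k (pd i v) x * pd l (pd j v) x) := by
  rw [pd_entry hv]
  have hi := cpd hv i
  have hj := cpd hv j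
  have hki := cpd hi k
  have hkj := cpd hj k
  rw [pd_add (diff_of (hi.mul hkj) x) (diff_of (hj.mul hki) x), pd_mul (diff_of hi x) (diff_of hkj x),
    pd_mul (diff_of hj x) (diff_of hki x)]

lemma gam_eq {m : ℕ} {v : E m → ℝ} (hv : ContDiff ℝ ∞ v) (a i j : Fin m) (x : E m) :
    Gam (euc v) x a i j = p v x a * A v x i j := by
  unfold Gam p A
  rw [pd_entry hv, pd_entry hv, pd_entry hv]
  simp only []
  rw [pd_comm hv j i, pd_comm hv i a, pd_comm hv j a]
  ring

lemma sum_ginv (h : S_INV) {m : ℕ} (v : E m → ℝ) (x : E m) :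
    ∑ a, ∑ b, ginv (euc v) x a b * (p v x a * p v x b) = 1 - 1 / W2 v x := by
  have hW : 0 < W2 v x := by
    unfold W2
    have : 0 ≤ ∑ i, p v x i ^ 2 := Finset.sum_nonneg fun i _ => sq_nonneg _
    linarith
  have h1 := (h m v x).1
  have h2 : ∑ i, p v x i ^ 2 = W2 v x - 1 := by unfold W2; ring
  have e : ∀ a, ∑ b, ginv (euc v) x a b * (p v x a * p v x b) =
      p v x a ^ 2 - p v x a ^ 2 * (W2 v x - 1) / W2 v x := by
    intro a
    calc ∑ b, ginv (euc v) x a b * (p v x a * p v x b)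
        = ∑ b, ((1 : Matrix (Fin m) (Fin m) ℝ) a b * (p v x a * p v x b)
            - p v x a ^ 2 / W2 v x * p v x b ^ 2) := by
          refine Finset.sum_congr rfl fun b _ => ?_
          rw [h1]; ring
      _ = p v x a ^ 2 - p v x a ^ 2 * (W2 v x - 1) / W2 v x := by
          rw [Finset.sum_sub_distrib, ← Finset.mul_sum, h2]
          have : ∑ b, (1 : Matrix (Fin m) (Fin m) ℝ) a b * (p v x a * p v x b) = p v x a ^ 2 := by
            simp [Matrix.one_apply, sq]
          rw [this]; ring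
  rw [Finset.sum_congr rfl fun a _ => e a]
  have e2 : ∀ a, p v x a ^ 2 - p v x a ^ 2 * (W2 v x - 1) / W2 v x = p v x a ^ 2 * (1 / W2 v x) := by
    intro a
    field_simp
    ring
  rw [Finset.sum_congr rfl fun a _ => e2 a, ← Finset.sum_mul, h2]
  field_simp

theorem t_RM : S_INV → S_RM := by
  intro hINV m v hv x i j k l
  have hW : 0 < W2 v x := by
    unfold W2
    have : 0 ≤ ∑ i, p v x i ^ 2 := Finset.sum_nonneg fun i _ => sq_nonneg _
    linarith
  unfold Rm
  have hsum : ∑ a, ∑ b, ginv (euc v) x a b *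
      (Gam (euc v) x a j k * Gam (euc v) x b i l - Gam (euc v) x a i k * Gam (euc v) x b j l) =
      (A v x j k * A v x i l - A v x i k * A v x j l) * (1 - 1 / W2 v x) := by
    rw [← sum_ginv hINV v x, Finset.mul_sum]
    refine Finset.sum_congr rfl fun a _ => ?_
    rw [Finset.mul_sum]
    refine Finset.sum_congr rfl fun b _ => ?_
    rw [gam_eq hv, gam_eq hv, gam_eq hv, gam_eq hv]
    ring
  rw [hsum, pd_pd_entry hv, pd_pd_entry hv, pd_pd_entry hv, pd_pd_entry hv]
  have c1 : ∀ a b c : Fin m, pd a (pd b (pd c v)) x = pd b (pd a (pd c v)) x :=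
    fun a b c => pd_comm (cpd hv c) a b x
  have c2 : ∀ a b c : Fin m, pd a (pd b (pd c v)) x = pd a (pd c (pd b v)) x := by
    intro a b c; rw [pd_comm_fun hv b c]
  have s : ∀ a b : Fin m, pd a (pd b v) x = pd b (pd a v) x := fun a b => pd_comm hv a b x
  have t1 : pd j (pd k (pd l v)) x = pd j (pd l (pd k v)) x := c2 _ _ _
  have t2 : pd j (pd k (pd i v)) x = pd i (pd k (pd j v)) x := by
    rw [c2 j k i, c1 j i k, c2 i j k]
  have t3 : pd i (pd l (pd k v)) x = pd i (pd k (pd l v)) x := c2 _ _ _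
  have t4 : pd i (pd l (pd j v)) x = pd j (pd l (pd i v)) x := by
    rw [c2 i l j, c1 i j l, c2 j i l]
  unfold A
  rw [t1, t2, t3, t4, s k l, s j i, s k i, s l j, s k j, s l i]
  field_simp
  ring

end Pool.Agent.U873.OM
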